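import Pool.Agent.H61.CA.C6

/-!
# CH-ALL, CORE C6: the special fibre of the descended family, its coordinates, fixed elements
-/

open MvPowerSeries

namespace Pool.Agent.H90.CA

open Pool.Agent.H13.CA Pool.Agent.H61.CA

variable {k : Type*} [Field k] {p s : ℕ} {F : FormalGroup (MvPowerSeries (Fin (s + 1)) k)}
  {L : Type*} [Field L] [Algebra k L] [Algebra (PowerSeries k) L]

theorem Sub.special_eq {D : Slice k p s F L} (E : Sub D) : special E.F' = D.Γ := by
  apply Pool.Agent.H61.CA.map_injective (algebraMap k L) (algebraMap k L).injective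
  rw [← D.hsp, ← E.hF']
  unfold special
  rw [Pool.Agent.H61.CA.map_map, Pool.Agent.H61.CA.map_map]
  congr 1
  ext f
  exact (E.cc f).symm

private theorem Ij_X (j : ℕ) :
    H86.NF.Ij (fun j : Fin s => (X j : MvPowerSeries (Fin s) L)) j = Istd L s j := by
  unfold H86.NF.Ij Istd
  congr 1
  ext x
  constructor
  · rintro ⟨l, hl, rfl⟩
    exact ⟨l, hl, rfl⟩
  · rintro ⟨l, hl, rfl⟩
    exact ⟨l, hl, rfl⟩

private theorem c_coeff {D : Slice k p s F L} (E : Sub D) (i : ℕ) :
    E.c (PowerSeries.coeff i (mulSer E.F' p)) = PowerSeries.coeff i (mulSer D.G p) := by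
  have h := mulSer_map E.F' (E.c : MvPowerSeries (Fin s) k →+* MvPowerSeries (Fin s) L) p
  rw [E.hF'] at h
  rw [h, PowerSeries.coeff_map]
  rfl

theorem Sub.isLT [Fact p.Prime] [CharP k p] (hF : IsLT k p (s + 1) F)
    (hinj : Function.Injective (algebraMap (PowerSeries k) L)) {D : Slice k p s F L} (E : Sub D) :
    IsLT k p s E.F' := by
  have hH := ht_G hF hinj D
  refine ⟨?_, ?_, ?_, ?_⟩
  · apply comm_of_map (E.c : MvPowerSeries (Fin s) k →+* MvPowerSeries (Fin s) L) E.inj
    rw [E.hF']
    exact D.hG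
  · intro j hj i hi
    rw [← E.mem_iff hF hinj hj, c_coeff, ← Ij_X]
    rcases Nat.lt_or_ge j s with h | h
    · exact hH.low ⟨j, h⟩ i hi
    · have h1 : j = s := le_antisymm hj h
      subst h1
      exact hH.last i hi
  · intro j
    have h1 : PowerSeries.coeff (p ^ (j.val + 1)) (mulSer E.F' p) = X j := by
      apply E.inj
      rw [c_coeff, E.c_X]
      rfl
    rw [h1, sub_self]
    exact Ideal.zero_mem _
  · rw [MvPowerSeries.isUnit_iff_constantCoeff]
    have h1 := mulSer_map E.F' (MvPowerSeries.constantCoeff (σ := Fin s) (R := k)) p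
    have h2 : E.F'.map (MvPowerSeries.constantCoeff (σ := Fin s) (R := k)) = D.Γ :=
      Sub.special_eq E
    rw [h2, D.hΓp] at h1
    have h3 := congrArg (PowerSeries.coeff (p ^ (s + 1))) h1
    rw [PowerSeries.coeff_map, PowerSeries.coeff_X_pow, if_pos rfl] at h3
    rw [← h3]
    exact isUnit_one

/-- a series fixed by `GSet D V` lies in the range of `c` -/
theorem Sub.c_fixed [Fact p.Prime] [CharP k p] {D : Slice k p s F L} (E : Sub D)
    {V : Subgroup (Lift k F)} {α : MvPowerSeries (Fin s) L ≃ₐ[k] MvPowerSeries (Fin s) L}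
    (h : α ∈ GSet D V) (f : MvPowerSeries (Fin s) k) : α (E.c f) = E.c f := by
  have h1 : E.c = (α : MvPowerSeries (Fin s) L →ₐ[k] MvPowerSeries (Fin s) L).comp E.c := by
    apply algHom_ext_mv
    · intro i
      rw [E.cc, MvPowerSeries.constantCoeff_X, map_zero]
    · intro i
      rw [AlgHom.comp_apply, E.c_X]
      exact (gset_ww D h i).symm
  exact (DFunLike.congr_fun h1 f).symm

end Pool.Agent.H90.CA
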